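import Pool.Agent.R902.Norm3

/-!
3-adic leading digit of the convolution sums for `n = 3 ^ a`.
-/

set_option linter.unusedSectionVars false

namespace Pool.Agent.R902.Q2

open Finset Pool.Agent.R902.Alpha Pool.Agent.R902.Norm3

theorem N_nat_one (j : ℕ) (hj : ¬ 3 ∣ j) : N (j : ℚ) = 1 :=
  (padicNorm.nat_eq_one_iff (p := 3) j).2 hj

theorem N_inv_one {x : ℚ} (hx : N x = 1) : N x⁻¹ = 1 := by
  have h0 : x ≠ 0 := by rintro rfl; simp at hx
  have h : N x⁻¹ * N x = 1 := by rw [← N_mul, inv_mul_cancel₀ h0]; simp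
  rwa [hx, mul_one] at h

theorem N_int_le (x : ℤ) : N (x : ℚ) ≤ 1 := padicNorm.of_int x

theorem N_int_dvd (x : ℤ) (k : ℕ) (h : (3 : ℤ) ^ k ∣ x) : N (x : ℚ) ≤ 1 / 3 ^ k := by
  obtain ⟨c, rfl⟩ := h
  push_cast
  rw [N_mul, N_pow, N_three]
  have : N (c : ℚ) ≤ 1 := padicNorm.of_int c
  calc (1 / 3 : ℚ) ^ k * N (c : ℚ) ≤ (1 / 3 : ℚ) ^ k * 1 := by gcongr
    _ = 1 / 3 ^ k := by rw [mul_one, one_div_pow]

theorem N_int_one (x : ℤ) (h : ¬ (3 : ℤ) ∣ x) : N (x : ℚ) = 1 := by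
  rw [N, padicNorm.int_eq_one_iff]
  exact_mod_cast h

theorem choose_mod (a : ℕ) : (2 * 3 ^ a).choose (3 ^ a) % 3 = 2 := by
  have : Fact (Nat.Prime 3) := ⟨Nat.prime_three⟩
  induction a with
  | zero => rfl
  | succ a ih =>
    have h := Choose.choose_modEq_choose_mod_mul_choose_div_nat (n := 2 * 3 ^ (a + 1))
      (k := 3 ^ (a + 1)) (p := 3)
    have e1 : 2 * 3 ^ (a + 1) % 3 = 0 := by rw [pow_succ]; omega
    have e2 : 3 ^ (a + 1) % 3 = 0 := by rw [pow_succ]; omega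
    have e3 : 2 * 3 ^ (a + 1) / 3 = 2 * 3 ^ a := by rw [pow_succ]; omega
    have e4 : 3 ^ (a + 1) / 3 = 3 ^ a := by rw [pow_succ]; omega
    rw [e1, e2, e3, e4, Nat.choose_self, one_mul] at h
    unfold Nat.ModEq at h
    omega

/-- `al (n - 1) / n ≡ -1` for `n = 3 ^ a` -/
theorem c_mod (a : ℕ) (ha : 1 ≤ a) (n : ℕ) (hn : n = 3 ^ a) :
    N (al (n - 1) / n + 1) ≤ 1 / 3 := by
  have h1 : 1 ≤ n := by rw [hn]; exact Nat.one_le_pow _ _ (by norm_num)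
  obtain ⟨q, hq⟩ : ∃ q, n = q + 1 := ⟨n - 1, by omega⟩
  have hs := al_succ q
  have hq0 : (2 * (q : ℚ) + 1) ≠ 0 := by positivity
  have hn0 : ((q : ℚ) + 1) ≠ 0 := by positivity
  have e : al (n - 1) / n + 1 =
      ((2 * ((2 * n).choose n : ℤ) + (2 * (n : ℤ) - 1) * 4 ^ n : ℤ) : ℚ) *
        (((4 : ℚ) ^ n)⁻¹ * (((2 * q + 1 : ℕ) : ℚ))⁻¹) := by
    have e1 : al (n - 1) = 2 * ((q : ℚ) + 1) * al (q + 1) / (2 * q + 1) := by
      rw [hq, Nat.add_sub_cancel]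
      field_simp
      linear_combination -hs
    rw [e1, hq, al]
    push_cast
    field_simp
    ring
  have h3n : 3 ∣ n := by rw [hn]; exact dvd_pow_self 3 (by omega)
  have hz : (3 : ℤ) ^ 1 ∣ (2 * ((2 * n).choose n : ℤ) + (2 * (n : ℤ) - 1) * 4 ^ n : ℤ) := by
    have hc : (2 * n).choose n % 3 = 2 := by rw [hn]; exact choose_mod a
    have h4 : (4 : ℤ) ^ n % 3 = 1 := by
      have := Int.ModEq.pow n (show (4 : ℤ) ≡ 1 [ZMOD 3] by decide)
      rw [one_pow] at this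
      exact this
    obtain ⟨t, ht⟩ := h3n
    obtain ⟨s, hs4⟩ : ∃ s : ℤ, (4 : ℤ) ^ n = 3 * s + 1 := ⟨4 ^ n / 3, by omega⟩
    obtain ⟨r, hr⟩ : ∃ r : ℕ, (2 * n).choose n = 3 * r + 2 := ⟨(2 * n).choose n / 3, by omega⟩
    rw [hs4, hr, pow_one]
    have : (n : ℤ) = 3 * t := by rw [ht]; push_cast; ring
    rw [this]
    push_cast
    exact ⟨2 * r + 4 / 3 * 0 + 1 + 6 * t * s + 2 * t - s, by ring⟩
  have h2q : N ((2 * q + 1 : ℕ) : ℚ) = 1 := by
    apply N_nat_one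
    have : 3 ∣ q + 1 := hq ▸ h3n
    omega
  have h4N : N ((4 : ℚ) ^ n) = 1 := by
    rw [N_pow]
    have : N (4 : ℚ) = 1 := by exact_mod_cast N_nat_one 4 (by norm_num)
    rw [this, one_pow]
  rw [e, N_mul, N_mul, N_inv_one h4N, N_inv_one h2q, mul_one, mul_one]
  simpa using N_int_dvd _ 1 hz

theorem small2 (a : ℕ) (ha : 2 ≤ a) (i : ℕ) (hi : i < 2 * a) : 2 * i + 1 < 3 ^ a := by
  have h1 : 4 * a - 1 < 3 ^ a := by
    obtain ⟨b, rfl⟩ : ∃ b, a = b + 2 := ⟨a - 2, by omega⟩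
    clear ha hi
    induction b with
    | zero => norm_num
    | succ b ih => rw [show b + 1 + 2 = b + 2 + 1 by ring, pow_succ]; omega
  omega

theorem pow4 (i : ℕ) (hi : 4 ≤ i) : (2 * i + 1) ^ 2 ≤ 3 ^ i := by
  obtain ⟨j, rfl⟩ : ∃ j, i = j + 4 := ⟨i - 4, by omega⟩
  clear hi
  induction j with
  | zero => norm_num
  | succ j ih =>
    have h7 : 3 * (2 * (j + 4) + 1) ^ 2 = (2 * (j + 1 + 4) + 1) ^ 2 + (8 * j ^ 2 + 64 * j + 122) := by
      ring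
    calc (2 * (j + 1 + 4) + 1) ^ 2 ≤ 3 * (2 * (j + 4) + 1) ^ 2 := by
          rw [h7]
          exact Nat.le_add_right _ _
      _ ≤ 3 * 3 ^ (j + 4) := by omega
      _ = 3 ^ (j + 1 + 4) := by ring

theorem pow3 (i : ℕ) (hi : 2 ≤ i) : 2 * (i + 1) + 1 ≤ 3 ^ i := by
  obtain ⟨j, rfl⟩ : ∃ j, i = j + 2 := ⟨i - 2, by omega⟩
  clear hi
  induction j with
  | zero => norm_num
  | succ j ih => rw [show j + 1 + 2 = j + 2 + 1 by ring, pow_succ]; omega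

section est

variable (n a : ℕ) (ha : 2 ≤ a) (hn1 : 1 ≤ n) (hna : 3 ^ a ∣ n)

include hna hn1 in
theorem gh (i : ℕ) (hi : 2 * i + 1 < 3 ^ a) :
    N (g n i - ((n - 1).choose (2 * i) : ℚ)) ≤ (2 * i + 1) / 3 ^ a := by
  have := N_sub (g_un n a hna i hi) (h_un n a hn1 hna i hi)
  rwa [sub_sub_sub_cancel_right] at this

include hna hn1 in
theorem t1 (u : ℚ) (hu : N u ≤ 1 / 3) (i : ℕ) (h2 : 2 ≤ i) (hi : 2 * i + 1 < 3 ^ a) :
    N ((g n i - ((n - 1).choose (2 * i) : ℚ)) * u ^ i / (2 * i + 1)) ≤ 1 / 3 ^ a := by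
  have h1 := gh n a hn1 hna i hi
  have h3 : N (u ^ i) ≤ (1 / 3) ^ i := by
    rw [N_pow]
    exact pow_le_pow_left₀ (N_nonneg u) hu i
  -- bound for the inverse
  obtain ⟨B, hB, hB2⟩ : ∃ B : ℚ, N ((2 * (i : ℚ) + 1)⁻¹) ≤ B ∧ (2 * (i : ℚ) + 1) * B ≤ 3 ^ i := by
    by_cases h4 : 4 ≤ i
    · refine ⟨2 * i + 1, ?_, ?_⟩
      · have h := N_inv_nat (2 * i + 1) (by omega)
        push_cast at h
        exact h
      · have h := pow4 i h4
        have h' : ((2 * i + 1 : ℕ) : ℚ) ^ 2 ≤ 3 ^ i := by exact_mod_cast h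
        push_cast at h'
        nlinarith
    · refine ⟨1, ?_, ?_⟩
      · have h := N_inv_one (N_nat_one (2 * i + 1) (by omega))
        push_cast at h
        exact h.le
      · have h5 : i = 2 ∨ i = 3 := by omega
        rcases h5 with rfl | rfl <;> norm_num
  rw [div_eq_mul_inv, N_mul, N_mul]
  have hB0 : 0 ≤ B := (N_nonneg _).trans hB
  calc N (g n i - ((n - 1).choose (2 * i) : ℚ)) * N (u ^ i) * N ((2 * (i : ℚ) + 1)⁻¹)
      ≤ ((2 * i + 1) / 3 ^ a) * (1 / 3) ^ i * B := by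
        gcongr
        · exact N_nonneg _
        · exact N_nonneg _
    _ = ((2 * (i : ℚ) + 1) * B / 3 ^ i) * (1 / 3 ^ a) := by
        rw [one_div_pow]
        field_simp
    _ ≤ 1 * (1 / 3 ^ a) := by
        gcongr
        rw [div_le_one (by positivity)]
        exact hB2
    _ = 1 / 3 ^ a := one_mul _

theorem t2 (u : ℚ) (k : ℕ) (hu : N u ≤ 1 / 3) (huk : N (u + 3) ≤ 1 / 3 ^ k) (i c : ℕ)
    (h2 : 2 ≤ i) : N ((c : ℚ) * (u ^ i - (-3) ^ i) / (2 * i + 1)) ≤ 1 / 3 ^ k := by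
  obtain ⟨i, rfl⟩ : ∃ j, i = j + 1 := ⟨i - 1, by omega⟩
  have h3 := N_pow_sub u k hu huk i
  have h4 := N_nat c
  obtain ⟨B, hB, hB2⟩ : ∃ B : ℚ, N ((2 * ((i : ℚ) + 1) + 1)⁻¹) ≤ B ∧ B ≤ 3 ^ i := by
    by_cases h5 : 2 ≤ i
    · refine ⟨2 * ((i : ℚ) + 1) + 1, ?_, ?_⟩
      · have h := N_inv_nat (2 * (i + 1) + 1) (by omega)
        push_cast at h
        exact h
      · have h := pow3 i h5
        exact_mod_cast h
    · have h6 : i = 1 := by omega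
      subst h6
      refine ⟨1, ?_, by norm_num⟩
      have h := N_inv_one (N_nat_one 5 (by norm_num))
      push_cast at h ⊢
      rw [show (2 * ((1 : ℚ) + 1) + 1) = 5 by norm_num]
      exact h.le
  push_cast
  rw [div_eq_mul_inv, N_mul, N_mul]
  have hB0 : 0 ≤ B := (N_nonneg _).trans hB
  calc N (c : ℚ) * N (u ^ (i + 1) - (-3) ^ (i + 1)) * N ((2 * ((i : ℚ) + 1) + 1)⁻¹)
      ≤ 1 * (1 / 3 ^ k * (1 / 3) ^ i) * B := by
        gcongr
        · exact N_nonneg _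
        · exact N_nonneg _
    _ = (B / 3 ^ i) * (1 / 3 ^ k) := by
        rw [one_div_pow]
        field_simp
    _ ≤ 1 * (1 / 3 ^ k) := by
        gcongr
        rw [div_le_one (by positivity)]
        exact hB2
    _ = 1 / 3 ^ k := one_mul _

/-- the main sum with `2 a` terms -/
def F2 (u : ℚ) : ℚ := ∑ i ∈ range (2 * a), g n i * u ^ i / (2 * i + 1)

/-- the comparison sum -/
def E2 : ℚ := ∑ i ∈ range (2 * a), ((n - 1).choose (2 * i) : ℚ) * (-3) ^ i / (2 * i + 1)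

/-- the tail -/
def tail2 (u : ℚ) : ℚ := ∑ i ∈ Ico (2 * a) n, al (n - 1 - i) * al i * u ^ i

include ha hna hn1 in
theorem J2 : 2 * a ≤ n := by
  have h1 := small2 a ha (2 * a - 1) (by omega)
  have h2 := Nat.le_of_dvd hn1 hna
  omega

include ha hna hn1 in
theorem decomp2 (u : ℚ) : ∑ i ∈ range n, al (n - 1 - i) * al i * u ^ i
    = al (n - 1) * F2 n a u + tail2 n a u := by
  have hJ := J2 n a ha hn1 hna
  rw [Finset.range_eq_Ico, ← Finset.sum_Ico_consecutive _ (Nat.zero_le _) hJ, F2, Finset.mul_sum,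
    tail2, Finset.range_eq_Ico]
  congr 1
  refine Finset.sum_congr rfl fun i hi => ?_
  have hi := Finset.mem_Ico.1 hi
  have h := al_prod n i (by omega)
  have h0 : (2 * (i : ℚ) + 1) ≠ 0 := by positivity
  field_simp
  linear_combination u ^ i * h

theorem N_tail2 (u : ℚ) (hu : N u ≤ 1 / 3) : N (tail2 n a u) ≤ (1 / 3) ^ (2 * a) := by
  apply padicNorm.sum_le'
  · intro i hi
    have hi := Finset.mem_Ico.1 hi
    have h1 := N_al (n - 1 - i)
    have h2 := N_al i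
    have e : padicNorm 3 (al (n - 1 - i) * al i * u ^ i) = N (al (n - 1 - i)) * N (al i) * N u ^ i
        := by rw [← N_pow, ← N_mul, ← N_mul]
    rw [e]
    calc N (al (n - 1 - i)) * N (al i) * N u ^ i ≤ 1 * 1 * (1 / 3) ^ i := by
          gcongr <;> first | exact N_nonneg _ | exact pow_nonneg (N_nonneg _) _
      _ = (1 / 3) ^ i := by ring
      _ ≤ (1 / 3) ^ (2 * a) := pow_le_pow_of_le_one (by norm_num) (by norm_num) hi.1
  · positivity

include ha hna hn1 in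
theorem n_E2 : (n : ℚ) * E2 n a = -∑ i ∈ Ico (2 * a) n, (n.choose (2 * i + 1) : ℚ) * (-3) ^ i
    := by
  have hJ := J2 n a ha hn1 hna
  obtain ⟨m, hm⟩ : 3 ∣ n := (dvd_pow_self 3 (by omega : a ≠ 0)).trans hna
  have h := B_zero m n (by omega)
  have h' := congrArg (fun x : ℤ => (x : ℚ)) h
  rw [← hm] at h'
  push_cast at h'
  rw [Finset.range_eq_Ico, ← Finset.sum_Ico_consecutive _ (Nat.zero_le _) hJ] at h'
  rw [E2, Finset.mul_sum, eq_neg_iff_add_eq_zero, ← h', Finset.range_eq_Ico]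
  congr 1
  refine Finset.sum_congr rfl fun i _ => ?_
  rw [← n_h n i hn1]
  ring

include ha hna hn1 in
theorem N_E2 (hex : N (n : ℚ) = 1 / 3 ^ a) : N (E2 n a) ≤ 1 / 3 ^ a := by
  have h1 : N ((n : ℚ) * E2 n a) ≤ (1 / 3) ^ (2 * a) := by
    rw [n_E2 n a ha hn1 hna, N_neg]
    apply padicNorm.sum_le'
    · intro i hi
      have hi := Finset.mem_Ico.1 hi
      have e : padicNorm 3 ((n.choose (2 * i + 1) : ℚ) * (-3) ^ i)
          = N (n.choose (2 * i + 1) : ℚ) * (1 / 3) ^ i := by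
        rw [← N_three, ← N_neg 3, ← N_pow, ← N_mul]
      rw [e]
      calc N (n.choose (2 * i + 1) : ℚ) * (1 / 3) ^ i ≤ 1 * (1 / 3) ^ i := by
            gcongr
            exact N_nat _
        _ = (1 / 3) ^ i := one_mul _
        _ ≤ (1 / 3) ^ (2 * a) := pow_le_pow_of_le_one (by norm_num) (by norm_num) hi.1
    · positivity
  rw [N_mul, hex] at h1
  have h2 : (1 / 3 : ℚ) ^ (2 * a) = (1 / 3 ^ a) * (1 / 3 ^ a) := by
    rw [two_mul, pow_add, one_div_pow]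
  rw [h2] at h1
  have h4 : (0 : ℚ) < 1 / 3 ^ a := by positivity
  exact le_of_mul_le_mul_left h1 h4

/-- the term `i = 1`, first part -/
theorem one1 (t : ℕ) (hn9 : n = 9 * t) (ht : 1 ≤ t) :
    N (-(g n 1 - ((n - 1).choose (2 * 1) : ℚ)) - n / 3) ≤ N (n : ℚ) := by
  have hc : ((n - 1).choose (2 * 1) : ℚ) = (n - 1) * (n - 2) / 2 := by
    obtain ⟨q, rfl⟩ : ∃ q, n = q + 1 := ⟨n - 1, by omega⟩
    rw [Nat.add_sub_cancel, mul_one, Nat.cast_choose_two]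
    push_cast
    ring
  have hnq : (n : ℚ) = 9 * t := by rw [hn9]; push_cast; ring
  have h6i : ¬ (3 : ℤ) ∣ 1 - 6 * (t : ℤ) := by omega
  have h6 : N ((1 - 6 * (t : ℤ) : ℤ) : ℚ) = 1 := N_int_one _ h6i
  have h60 : (1 - 6 * (t : ℚ)) ≠ 0 := by
    intro h
    have : ((1 - 6 * (t : ℤ) : ℤ) : ℚ) = 0 := by push_cast; exact h
    rw [this] at h6
    simp at h6
  have e : -(g n 1 - ((n - 1).choose (2 * 1) : ℚ)) - n / 3
      = (n : ℚ) * (((-(3 - 31 * (t : ℤ) + 54 * (t : ℤ) ^ 2) : ℤ) : ℚ) *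
        ((2 : ℕ) : ℚ)⁻¹ * ((1 - 6 * (t : ℤ) : ℤ) : ℚ)⁻¹) := by
    rw [hc, g, Finset.prod_range_one, hnq]
    push_cast
    have : (1 - 2 * (9 * (t : ℚ)) / (2 * 0 + 3)) = 1 - 6 * t := by ring
    rw [this]
    have h7 : (1 - 6 * (t : ℚ)) * (1 - 6 * (t : ℚ))⁻¹ = 1 := mul_inv_cancel₀ h60
    linear_combination (-(81 * (t : ℚ) ^ 2 - 33 * t + 2) / 2) * h7
  rw [e, N_mul, N_mul, N_mul, N_inv_one h6, N_inv_one (N_nat_one 2 (by norm_num)), mul_one, mul_one]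
  calc N (n : ℚ) * N ((-(3 - 31 * (t : ℤ) + 54 * (t : ℤ) ^ 2) : ℤ) : ℚ) ≤ N (n : ℚ) * 1 := by
        gcongr
        · exact N_nonneg _
        · exact N_int_le _
    _ = N (n : ℚ) := mul_one _

end est

end Pool.Agent.R902.Q2
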