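import Pool.Agent.R902.Q2.Lead

/-!
The leading digit of `S_m(3^a) / 3^a`.
-/

set_option linter.unusedSectionVars false

namespace Pool.Agent.R902.Q2

open Finset Pool.Agent.R902.Alpha Pool.Agent.R902.Norm3

theorem main (n a k : ℕ) (ha : 2 ≤ a) (hn : n = 3 ^ a) (hk : k ≤ a) (m : ℤ) (hm : m % 3 = 1)
    (hkm : (3 : ℤ) ^ k ∣ m - 1) :
    N ((∑ i ∈ range n, al (n - 1 - i) * al i * (((m : ℚ) - 4) / m) ^ i) / n
      + ((m : ℚ) - 1) / 3 + n / 3) ≤ 1 / 3 ^ k := by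
  have hn1 : 1 ≤ n := by rw [hn]; exact Nat.one_le_pow _ _ (by norm_num)
  have hn0 : (n : ℚ) ≠ 0 := by
    have : n ≠ 0 := by omega
    exact_mod_cast this
  have hna : 3 ^ a ∣ n := by rw [hn]
  have hNn : N (n : ℚ) = 1 / 3 ^ a := by
    rw [hn]
    push_cast
    rw [N_pow, N_three, one_div_pow]
  have hm0 : (m : ℚ) ≠ 0 := by
    have : m ≠ 0 := by rintro rfl; norm_num at hm
    exact_mod_cast this
  have hNm : N ((m : ℚ)⁻¹) = 1 := N_inv_one (N_int_one m (by omega))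
  have hN3 : N ((3 : ℚ)⁻¹) = 3 := by
    have h : N ((3 : ℚ)⁻¹) * N 3 = 1 := by rw [← N_mul]; norm_num
    rw [N_three] at h
    linarith
  have hNm1 : N ((m : ℚ) - 1) ≤ 1 / 3 ^ k := by
    have := N_int_dvd (m - 1) k hkm
    push_cast at this
    exact this
  obtain ⟨u, hu⟩ : ∃ u, u = ((m : ℚ) - 4) / m := ⟨_, rfl⟩
  have hNu : N u ≤ 1 / 3 := by
    rw [hu, div_eq_mul_inv, N_mul, hNm, mul_one]
    have h := N_int_dvd (m - 4) 1 (by rw [pow_one]; omega)
    push_cast at h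
    rwa [pow_one] at h
  have hu3 : u + 3 = 4 * ((m : ℚ) - 1) * (m : ℚ)⁻¹ := by
    rw [hu]
    field_simp
    ring
  have huk : N (u + 3) ≤ 1 / 3 ^ k := by
    rw [hu3, N_mul, hNm, mul_one, N_mul]
    have h4 : N (4 : ℚ) ≤ 1 := by exact_mod_cast N_nat 4
    calc N 4 * N ((m : ℚ) - 1) ≤ 1 * (1 / 3 ^ k) := by
          gcongr
          exact N_nonneg _
      _ = 1 / 3 ^ k := one_mul _
  rw [← hu]
  have hka : (1 : ℚ) / 3 ^ a ≤ 1 / 3 ^ k := by
    gcongr
    norm_num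
  have h9a : (3 : ℚ) / 3 ^ a ≤ 1 / 3 := by
    obtain ⟨b, rfl⟩ : ∃ b, a = b + 2 := ⟨a - 2, by omega⟩
    rw [pow_add]
    have : (1 : ℚ) ≤ 3 ^ b := one_le_pow₀ (by norm_num)
    rw [div_le_iff₀ (by positivity)]
    nlinarith
  -- the natural number `h`
  obtain ⟨h, hh⟩ : ∃ h : ℕ, h = (n - 1).choose (2 * 1) := ⟨_, rfl⟩
  have h31 : 2 * 1 + 1 < 3 ^ a := small2 a ha 1 (by omega)
  have hh1 : N ((h : ℚ) - 1) ≤ 1 / 3 := by
    have := h_un n a hn1 hna 1 h31
    rw [hh]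
    refine this.trans ?_
    norm_num at h9a ⊢
    exact h9a
  have hgh : N (g n 1 - (h : ℚ)) ≤ 3 / 3 ^ a := by
    have := gh n a hn1 hna 1 h31
    rw [hh]
    refine this.trans (le_of_eq ?_)
    norm_num
  -- the sum
  obtain ⟨X, hX⟩ : ∃ X : ℚ, X = ((m : ℚ) - 1) / 3 + n / 3 := ⟨_, rfl⟩
  have hNX : N X ≤ 3 / 3 ^ k := by
    rw [hX]
    apply N_add
    · rw [div_eq_mul_inv, N_mul, hN3]
      calc N ((m : ℚ) - 1) * 3 ≤ (1 / 3 ^ k) * 3 := by gcongr
        _ = 3 / 3 ^ k := by ring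
    · rw [div_eq_mul_inv, N_mul, hN3, hNn]
      calc (1 : ℚ) / 3 ^ a * 3 ≤ (1 / 3 ^ k) * 3 := by gcongr
        _ = 3 / 3 ^ k := by ring
  have hδ : N (F2 n a u - X) ≤ 1 / 3 ^ k := by
    have e : F2 n a u = ∑ i ∈ range (2 * a), ((g n i - ((n - 1).choose (2 * i) : ℚ)) * u ^ i /
        (2 * i + 1) + ((n - 1).choose (2 * i) : ℚ) * (u ^ i - (-3) ^ i) / (2 * i + 1)) + E2 n a := by
      rw [F2, E2, ← Finset.sum_add_distrib]
      refine Finset.sum_congr rfl fun i _ => by ring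
    have e2 : F2 n a u - X = (-(g n 1 - (h : ℚ)) - n / 3)
        + (g n 1 - (h : ℚ)) * (u + 3) * (3 : ℚ)⁻¹
        + ((m : ℚ) - 1) * (3 : ℚ)⁻¹ * (4 * ((h : ℚ) - 1) + (4 - m)) * (m : ℚ)⁻¹
        + ∑ i ∈ Ico 2 (2 * a), ((g n i - ((n - 1).choose (2 * i) : ℚ)) * u ^ i /
        (2 * i + 1) + ((n - 1).choose (2 * i) : ℚ) * (u ^ i - (-3) ^ i) / (2 * i + 1))
        + E2 n a := by
      rw [e, Finset.range_eq_Ico, ← Finset.sum_Ico_consecutive _ (Nat.zero_le 2) (by omega : 2 ≤ 2 * a),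
        ← Finset.range_eq_Ico, Finset.sum_range_succ, Finset.sum_range_one, ← hh]
      have hg0 : g n 0 = 1 := by simp [g]
      have hu' : u = 4 * ((m : ℚ) - 1) * (m : ℚ)⁻¹ - 3 := by rw [← hu3]; ring
      have hmm : (m : ℚ) * (m : ℚ)⁻¹ = 1 := mul_inv_cancel₀ hm0
      rw [hg0, hX, mul_zero, Nat.choose_zero_right, pow_zero, pow_zero, pow_one, pow_one]
      push_cast
      rw [hu']
      linear_combination (((m : ℚ) - 1) / 3) * hmm
    rw [e2]
    refine N_add (N_add (N_add (N_add ?_ ?_) ?_) ?_) ?_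
    · obtain ⟨t, ht⟩ : ∃ t, n = 9 * t := by
        obtain ⟨b, rfl⟩ : ∃ b, a = b + 2 := ⟨a - 2, by omega⟩
        exact ⟨3 ^ b, by rw [hn]; ring⟩
      have := one1 n t ht (by omega)
      rw [← hh, hNn] at this
      exact this.trans hka
    · rw [N_mul, N_mul, hN3]
      calc N (g n 1 - (h : ℚ)) * N (u + 3) * 3 ≤ (3 / 3 ^ a) * (1 / 3 ^ k) * 3 := by
            gcongr
            exact N_nonneg _
        _ ≤ (1 / 3) * (1 / 3 ^ k) * 3 := by gcongr
        _ = 1 / 3 ^ k := by ring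
    · rw [N_mul, N_mul, N_mul, hN3, hNm, mul_one]
      have h5 : N (4 * ((h : ℚ) - 1) + (4 - m)) ≤ 1 / 3 := by
        apply N_add
        · rw [N_mul]
          have h4 : N (4 : ℚ) ≤ 1 := by exact_mod_cast N_nat 4
          calc N 4 * N ((h : ℚ) - 1) ≤ 1 * (1 / 3) := by
                gcongr
                exact N_nonneg _
            _ = 1 / 3 := one_mul _
        · have h := N_int_dvd (4 - m) 1 (by rw [pow_one]; omega)
          push_cast at h
          rwa [pow_one] at h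
      calc N ((m : ℚ) - 1) * 3 * N (4 * ((h : ℚ) - 1) + (4 - m)) ≤ (1 / 3 ^ k) * 3 * (1 / 3) := by
            gcongr
            exact N_nonneg _
        _ = 1 / 3 ^ k := by ring
    · apply padicNorm.sum_le'
      · intro i hi
        have hi := Finset.mem_Ico.1 hi
        have hs := small2 a ha i (by omega)
        apply N_add
        · exact (t1 n a hn1 hna u hNu i hi.1 hs).trans hka
        · exact t2 u k hNu huk i _ hi.1
      · positivity
    · exact (N_E2 n a ha hn1 hna hNn).trans hka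
  -- assembly
  obtain ⟨c, hc⟩ : ∃ c : ℚ, c = al (n - 1) / n := ⟨_, rfl⟩
  have hc1 : N (c + 1) ≤ 1 / 3 := by
    rw [hc]
    exact c_mod a (by omega) n hn
  have hcN : N c ≤ 1 := by
    have : c = (c + 1) - 1 := by ring
    rw [this]
    refine N_sub (hc1.trans (by norm_num)) ?_
    simp
  have hfin : (∑ i ∈ range n, al (n - 1 - i) * al i * u ^ i) / n + ((m : ℚ) - 1) / 3 + n / 3
      = (c + 1) * X + c * (F2 n a u - X) + tail2 n a u * (n : ℚ)⁻¹ := by
    rw [decomp2 n a ha hn1 hna u, hc, hX]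
    ring
  rw [hfin]
  refine N_add (N_add ?_ ?_) ?_
  · rw [N_mul]
    calc N (c + 1) * N X ≤ (1 / 3) * (3 / 3 ^ k) := by
          gcongr
          exact N_nonneg _
      _ = 1 / 3 ^ k := by ring
  · rw [N_mul]
    calc N c * N (F2 n a u - X) ≤ 1 * (1 / 3 ^ k) := by
          gcongr
          exact N_nonneg _
      _ = 1 / 3 ^ k := one_mul _
  · have hni : N ((n : ℚ)⁻¹) = 3 ^ a := by
      have h : N ((n : ℚ)⁻¹) * N (n : ℚ) = 1 := by rw [← N_mul, inv_mul_cancel₀ hn0]; simp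
      rw [hNn] at h
      obtain ⟨w, hw⟩ : ∃ w, w = N ((n : ℚ)⁻¹) := ⟨_, rfl⟩
      rw [← hw] at h ⊢
      have h3 : (3 : ℚ) ^ a ≠ 0 := by positivity
      calc w = w * (1 / 3 ^ a) * 3 ^ a := by field_simp
        _ = 3 ^ a := by rw [h, one_mul]
    rw [N_mul, hni]
    have h1 := N_tail2 n a u hNu
    calc N (tail2 n a u) * 3 ^ a ≤ (1 / 3) ^ (2 * a) * 3 ^ a := by gcongr
      _ = 1 / 3 ^ a := by
          rw [two_mul, pow_add, one_div_pow]
          field_simp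
      _ ≤ 1 / 3 ^ k := hka

end Pool.Agent.R902.Q2
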